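import Pool.Agent.Lib.TGB_h66.PDer
import Pool.Agent.Lib.TG_h81.Loc3

/-!
# TANK G, track L: from PROJ to the derivations of the localised normalisation (row B2)

`w = u z f(z)`, `u ∈ k[b]` divisible by the `b_i` and by the denominators.  In the integral closure
`S` of `k[b, z][1/w]` in `K` everything of `PROJ` is a unit, so `A₀ ≤ S` and `S` is stable under the
derivations constant on `b`, `z` (`Proj.der_mem`).
-/

set_option autoImplicit false

open Polynomial

namespace Pool.Agent.TG

open Pool.Agent.TGBh66 (PR DER invS mem_invS le_invS int_clearS inv_mem_invS)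

universe u w

section Den

variable {k K : Type u} [Field k] [Field K] [Algebra k K] {m : ℕ}

/-- `u ∈ k[b]` is a common denominator of the coefficients of `f` and of the `c`, `c⁻¹`. -/
structure Den (b : Fin m → K) (f : (LB k b)[X]) (C : Finset K) (u : K) : Prop where
  mem : u ∈ Algebra.adjoin k (Set.range b)
  ne : u ≠ 0
  coeff : ∀ i, u * (f.coeff i : K) ∈ Algebra.adjoin k (Set.range b)
  c_mem : ∀ c ∈ C, u * c ∈ Algebra.adjoin k (Set.range b)
  c_inv : ∀ c ∈ C, u * c⁻¹ ∈ Algebra.adjoin k (Set.range b)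

/-- Finitely many elements of `k(b)` have a common denominator in `k[b]`. -/
theorem exists_den_finset (b : Fin m → K) (T : Finset K) (hT : ∀ x ∈ T, x ∈ LB k b) :
    ∃ u ∈ Algebra.adjoin k (Set.range b), u ≠ 0 ∧
      ∀ x ∈ T, u * x ∈ Algebra.adjoin k (Set.range b) := by
  classical
  induction T using Finset.induction_on with
  | empty => exact ⟨1, one_mem _, one_ne_zero, fun x hx => absurd hx (Finset.notMem_empty x)⟩
  | insert a T _ ih =>
    obtain ⟨u, hu, hu0, h1⟩ := ih fun x hx => hT x (Finset.mem_insert_of_mem hx)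
    obtain ⟨r, hr, s, hs, hrs⟩ := IntermediateField.mem_adjoin_iff_div.1
      (hT a (Finset.mem_insert_self a T))
    by_cases hs0 : s = 0
    · refine ⟨u, hu, hu0, fun x hx => ?_⟩
      rcases Finset.mem_insert.1 hx with rfl | hx
      · rw [hrs, hs0, div_zero, mul_zero]
        exact zero_mem _
      · exact h1 x hx
    · refine ⟨u * s, mul_mem hu hs, mul_ne_zero hu0 hs0, fun x hx => ?_⟩
      rcases Finset.mem_insert.1 hx with rfl | hx
      · have e : u * s * x = u * r := by
          rw [hrs]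
          field_simp
        rw [e]
        exact mul_mem hu hr
      · have e : u * s * x = s * (u * x) := by ring
        rw [e]
        exact mul_mem hs (h1 x hx)

theorem exists_Den (b : Fin m → K) (f : (LB k b)[X]) (C : Finset K) (hC : ∀ c ∈ C, c ∈ LB k b) :
    ∃ u : K, Den b f C u := by
  classical
  obtain ⟨u, hu, hu0, h1⟩ := exists_den_finset b
    ((f.support.image fun i => (f.coeff i : K)) ∪ (C ∪ C.image fun c => c⁻¹)) (by
      intro x hx
      rcases Finset.mem_union.1 hx with hx | hx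
      · obtain ⟨i, -, rfl⟩ := Finset.mem_image.1 hx
        exact (f.coeff i).2
      · rcases Finset.mem_union.1 hx with hx | hx
        · exact hC x hx
        · obtain ⟨c, hc, rfl⟩ := Finset.mem_image.1 hx
          exact inv_mem (hC c hc))
  refine ⟨u, hu, hu0, fun i => ?_, fun c hc => ?_, fun c hc => ?_⟩
  · by_cases hi : i ∈ f.support
    · exact h1 _ (Finset.mem_union_left _ (Finset.mem_image.2 ⟨i, hi, rfl⟩))
    · rw [Polynomial.notMem_support_iff.1 hi, ZeroMemClass.coe_zero, mul_zero]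
      exact zero_mem _
  · exact h1 _ (Finset.mem_union_right _ (Finset.mem_union_left _ hc))
  · exact h1 _ (Finset.mem_union_right _ (Finset.mem_union_right _
      (Finset.mem_image.2 ⟨c, hc, rfl⟩)))

/-- The factor of `w` in `L₀ = k(b)`. -/
noncomputable def uden (b : Fin m → K) (u : K) : K := u * (∏ i, b i) * u

variable {A₀ : Subalgebra k K} {d : ℕ} {b : Fin m → K} {z : K} {f : (LB k b)[X]} {C : Finset K}
  {u : K}

theorem adj_le (b : Fin m → K) (z : K) : Algebra.adjoin k (Set.range b) ≤ Abz k b z :=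
  Algebra.adjoin_mono (Set.subset_insert _ _)

theorem z_mem_Abz (b : Fin m → K) (z : K) : z ∈ Abz k b z :=
  Algebra.subset_adjoin (Set.mem_insert _ _)

theorem prod_mem_adj (b : Fin m → K) (s : Finset (Fin m)) :
    ∏ i ∈ s, b i ∈ Algebra.adjoin k (Set.range b) :=
  prod_mem fun i _ => Algebra.subset_adjoin ⟨i, rfl⟩

theorem Den.uden_mem (hu : Den b f C u) : uden b u ∈ Algebra.adjoin k (Set.range b) :=
  mul_mem (mul_mem hu.mem (prod_mem_adj b _)) hu.mem

theorem Den.fz_mem (hu : Den b f C u) (z : K) : u * aeval z f ∈ Abz k b z := by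
  rw [aeval_eq_sum_range, Finset.mul_sum]
  refine sum_mem fun i _ => ?_
  rw [Algebra.smul_def, ← mul_assoc]
  exact mul_mem (adj_le b z (hu.coeff i)) (pow_mem (z_mem_Abz b z) i)

theorem Den.w_mem (hu : Den b f C u) (z : K) : uden b u * z * aeval z f ∈ Abz k b z := by
  have e : uden b u * z * aeval z f = u * (∏ i, b i) * z * (u * aeval z f) := by
    unfold uden
    ring
  rw [e]
  exact mul_mem (mul_mem (adj_le b z (mul_mem hu.mem (prod_mem_adj b _))) (z_mem_Abz b z))
    (hu.fz_mem z)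

theorem Proj.w_ne (h : Proj A₀ d b z f C) (hu : Den b f C u) :
    uden b u * z * aeval z f ≠ 0 :=
  mul_ne_zero (mul_ne_zero (mul_ne_zero (mul_ne_zero hu.ne
    (Finset.prod_ne_zero_iff.2 fun i _ => h.b_ne i)) hu.ne) h.z_ne) h.f_ne

/-- `w` kills the denominators of everything in `PROJ`. -/
theorem Proj.outside_of (h : Proj A₀ d b z f C) (hu : Den b f C u) {S : Subalgebra k K}
    (hloc : LocOf (ncl (Abz k b z)) S)
    (hw : ∀ x : K, uden b u * z * aeval z f * x ∈ Abz k b z → x ∈ S) : Outside b z f C S := by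
  classical
  have hP : ∀ s : Finset (Fin m), ∏ i ∈ s, b i ∈ Abz k b z := fun s =>
    adj_le b z (prod_mem_adj b s)
  have hu' : u ∈ Abz k b z := adj_le b z hu.mem
  have hz := z_mem_Abz (k := k) b z
  have hf := hu.fz_mem z
  refine ⟨hloc, hw _ ?_, fun i => hw _ ?_, fun c hc => hw _ ?_, fun c hc => hw _ ?_, hw _ ?_,
    hw _ ?_⟩
  · have e : uden b u * z * aeval z f * z⁻¹ = u * (∏ i, b i) * (u * aeval z f) := by
      have := h.z_ne
      unfold uden
      field_simp
    rw [e]
    exact mul_mem (mul_mem hu' (hP _)) hf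
  · have hbi := h.b_ne i
    have e : uden b u * z * aeval z f * (b i)⁻¹ =
        u * (∏ j ∈ Finset.univ.erase i, b j) * z * (u * aeval z f) := by
      unfold uden
      rw [← Finset.mul_prod_erase Finset.univ b (Finset.mem_univ i)]
      field_simp
    rw [e]
    exact mul_mem (mul_mem (mul_mem hu' (hP _)) hz) hf
  · have e : uden b u * z * aeval z f * c = (u * c) * (∏ i, b i) * z * (u * aeval z f) := by
      unfold uden
      ring
    rw [e]
    exact mul_mem (mul_mem (mul_mem (adj_le b z (hu.c_mem c hc)) (hP _)) hz) hf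
  · have e : uden b u * z * aeval z f * c⁻¹ =
        (u * c⁻¹) * (∏ i, b i) * z * (u * aeval z f) := by
      unfold uden
      ring
    rw [e]
    exact mul_mem (mul_mem (mul_mem (adj_le b z (hu.c_inv c hc)) (hP _)) hz) hf
  · have e : uden b u * z * aeval z f * aeval z f =
        (∏ i, b i) * z * (u * aeval z f) * (u * aeval z f) := by
      unfold uden
      ring
    rw [e]
    exact mul_mem (mul_mem (mul_mem (hP _) hz) hf) hf
  · have e : uden b u * z * aeval z f * (aeval z f)⁻¹ = u * (∏ i, b i) * u * z := by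
      have := h.f_ne
      unfold uden
      field_simp
    rw [e]
    exact mul_mem (mul_mem (mul_mem hu' (hP _)) hu') hz

end Den

section Over

variable {k K Ω : Type u} [Field k] [Field K] [Field Ω] [Algebra k K] [Algebra k Ω] {m : ℕ}

/-- Integrality over `ι(A)` of `ι x`. -/
theorem isIntegral_map_iff (ι : K →ₐ[k] Ω) (A : Subalgebra k K) (x : K) :
    IsIntegral (A.map ι) (ι x) ↔ IsIntegral A x := by
  constructor
  · rintro ⟨p, hp, h0⟩
    let φ : A ≃ₐ[k] A.map ι := A.equivMapOfInjective ι ι.injective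
    have hφ : ∀ a : A, ((φ a : A.map ι) : Ω) = ι a := fun a => rfl
    refine ⟨p.map φ.symm.toRingEquiv.toRingHom, hp.map _, ι.injective ?_⟩
    rw [map_zero, ← h0, eval₂_map]
    have e := hom_eval₂ p ((algebraMap A K).comp φ.symm.toRingEquiv.toRingHom) (ι : K →+* Ω) x
    refine e.trans ?_
    congr 1
    refine RingHom.ext fun a => ?_
    change ι ((φ.symm a : A) : K) = (a : Ω)
    rw [← hφ, AlgEquiv.apply_symm_apply]
  · rintro ⟨p, hp, h0⟩
    let φ : A ≃ₐ[k] A.map ι := A.equivMapOfInjective ι ι.injective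
    refine ⟨p.map φ.toRingEquiv.toRingHom, hp.map _, ?_⟩
    rw [eval₂_map]
    have e := hom_eval₂ p (algebraMap A K) (ι : K →+* Ω) x
    have h1 : eval₂ (algebraMap A K) x p = 0 := h0
    rw [h1, map_zero] at e
    exact e.symm

/-- The pullback of the integral closure of `ι(k[b, z])[1/ι(w)]`. -/
def SOf (ι : K →ₐ[k] Ω) (A : Subalgebra k K) (w : K) : Subalgebra k K :=
  (ncl (invS (A.map ι) (Submonoid.powers (ι w)))).comap ι

theorem mem_SOf {ι : K →ₐ[k] Ω} {A : Subalgebra k K} {w x : K} : x ∈ SOf ι A w ↔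
    IsIntegral (invS (A.map ι) (Submonoid.powers (ι w))) (ι x) := Iff.rfl

theorem SOf_loc (ι : K →ₐ[k] Ω) {A : Subalgebra k K} {w : K} (hw0 : w ≠ 0) (hw : w ∈ A) :
    LocOf (ncl A) (SOf ι A w) := by
  refine ⟨fun x hx => ?_, fun s hs => ?_⟩
  · rw [mem_SOf]
    exact TGBh66.isIntegral_mono le_invS ((isIntegral_map_iff ι A x).2 hx)
  · obtain ⟨y, ⟨n, hn⟩, hyR, hy⟩ := int_clearS (mem_SOf.1 hs)
    have hn' : y = ι (w ^ n) := by
      rw [← hn, map_pow]
    refine ⟨w ^ n * s, ?_, w ^ n, le_ncl A (pow_mem hw n), pow_ne_zero n hw0, ?_, ?_⟩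
    · change IsIntegral A (w ^ n * s)
      rw [← isIntegral_map_iff ι, map_mul, ← hn']
      exact hy
    · rw [mem_SOf, map_inv₀]
      refine TGBh66.isIntegral_of_mem (inv_mem_invS ⟨n, ?_⟩ ⟨_, pow_mem hw n, rfl⟩ ?_)
      · rw [map_pow]
      · exact (map_ne_zero ι).2 (pow_ne_zero n hw0)
    · have := pow_ne_zero n hw0
      field_simp

theorem SOf_of_mul (ι : K →ₐ[k] Ω) {A : Subalgebra k K} {w : K} (hw : w ∈ A) {x : K}
    (hx : w * x ∈ A) : x ∈ SOf ι A w := by
  rw [mem_SOf]
  exact TGBh66.isIntegral_of_mem ⟨ι w, ⟨1, pow_one _⟩, ⟨w, hw, rfl⟩, ⟨w * x, hx, map_mul ι w x⟩⟩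

variable {A₀ : Subalgebra k K} {d : ℕ} {b : Fin m → K} {z : K} {f : (LB k b)[X]} {C : Finset K}
  {u : K}

/-- **Row B2**, for a given `u`. -/
theorem Proj.b2 [PerfectField k] (h : Proj A₀ d b z f C) (hK : (⊤ : IntermediateField k K).FG)
    (hu : Den b f C u) (ι : K →ₐ[k] Ω) {n : ℕ} (tt : Fin n → K)
    (htt : Set.range tt = insert z (Set.range b)) :
    DER k (fun j => ι (tt j)) (ι (uden b u * z * aeval z f)) ι.fieldRange ∧
      ∀ a ∈ A₀, IsIntegral (invS (PR k fun j => ι (tt j))
        (Submonoid.powers (ι (uden b u * z * aeval z f)))) (ι a) := by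
  have hPR : PR k (fun j => ι (tt j)) = (Abz k b z).map ι := by
    unfold PR
    rw [show (Set.range fun j => ι (tt j)) = ι '' Set.range tt from Set.range_comp ι tt, htt,
      ← AlgHom.map_adjoin]
  have hS := h.outside_of hu (SOf_loc ι (h.w_ne hu) (hu.w_mem z))
    (fun x hx => SOf_of_mul ι (hu.w_mem z) hx)
  rw [DER, hPR]
  refine ⟨fun D hD a ha => ?_, fun a ha => mem_SOf.1 (h.le_of_outside hK hS ha)⟩
  let e : K ≃ₐ[k] ι.fieldRange := AlgEquiv.ofInjectiveField ι
  have he : ∀ x : K, ((e x : ι.fieldRange) : Ω) = ι x := fun x => rfl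
  have he' : ∀ y : ι.fieldRange, ι (e.symm y) = (y : Ω) := fun y => by
    rw [← he, AlgEquiv.apply_symm_apply]
  let D' : Derivation k K K := Derivation.mk'
    (e.symm.toLinearMap ∘ₗ D.toLinearMap ∘ₗ e.toLinearMap) (by
      intro x y
      change e.symm (D (e (x * y))) = x * e.symm (D (e y)) + y * e.symm (D (e x))
      rw [map_mul, Derivation.leibniz, map_add, smul_eq_mul, smul_eq_mul, map_mul, map_mul,
        AlgEquiv.symm_apply_apply, AlgEquiv.symm_apply_apply])
  have hD' : ∀ x : K, ι (D' x) = (D (e x) : Ω) := fun x => he' _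
  have hc : ∀ x ∈ Set.range tt, ∃ c : k, D' x = algebraMap k K c := by
    rintro x ⟨j, rfl⟩
    obtain ⟨c, hc⟩ := hD j
    refine ⟨c, ι.injective ?_⟩
    change ι (D' (tt j)) = ι (algebraMap k K c)
    rw [hD', hc (e (tt j)) (he _), AlgHom.commutes]
  have h1 := h.der_mem hK hS D' (fun i => by
    obtain ⟨c, hc⟩ := hc (b i) (htt ▸ Set.mem_insert_of_mem _ ⟨i, rfl⟩)
    rw [hc]
    exact Subalgebra.algebraMap_mem _ c) (by
    obtain ⟨c, hc⟩ := hc z (htt ▸ Set.mem_insert _ _)
    rw [hc]
    exact Subalgebra.algebraMap_mem _ c) (e.symm a) (by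
    rw [mem_SOf, he']
    exact ha)
  rw [mem_SOf, hD', AlgEquiv.apply_symm_apply] at h1
  exact h1

/-- **Row B2** in the form of IND: `w = u z f(z)`, `u ∈ k(b)`. -/
theorem Proj.exists_w [PerfectField k] (h : Proj A₀ d b z f C)
    (hK : (⊤ : IntermediateField k K).FG) :
    ∃ u : LB k b, u ≠ 0 ∧ (u : K) * z * aeval z f ≠ 0 ∧
      (u : K) ∈ Algebra.adjoin k (Set.range b) ∧
      (u : K) * z * aeval z f ∈ Algebra.adjoin k (insert z (Set.range b)) ∧
      ∀ (Ω : Type u) [Field Ω] [Algebra k Ω] (ι : K →ₐ[k] Ω),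
        DER k (fun j => ι ((Fin.cons z b : Fin (m + 1) → K) j)) (ι ((u : K) * z * aeval z f))
          ι.fieldRange ∧
        ∀ a ∈ A₀, IsIntegral (invS (PR k fun j => ι ((Fin.cons z b : Fin (m + 1) → K) j))
          (Submonoid.powers (ι ((u : K) * z * aeval z f)))) (ι a) := by
  obtain ⟨u, hu⟩ := exists_Den b f C h.C_mem
  refine ⟨⟨uden b u, IntermediateField.algebra_adjoin_le_adjoin k _ hu.uden_mem⟩, fun h0 => ?_,
    h.w_ne hu, hu.uden_mem, hu.w_mem z, fun Ω _ _ ι => h.b2 hK hu ι _ (Fin.range_cons z b)⟩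
  have h1 := h.w_ne hu
  rw [show uden b u = 0 from congrArg Subtype.val h0, zero_mul, zero_mul] at h1
  exact h1 rfl

end Over

end Pool.Agent.TG
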